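import Pool.Agent.Helper67_LAP.SK2

/-!
# LAP, module CN3: the event for the sizes
-/

set_option autoImplicit false

namespace Pool.Agent.LAP.H67

open scoped Classical
open Finset

variable {α β : Type}

/-- Monotonicity of `pr`. -/
theorem pr_mono {U S : Type} [Fintype U] [Fintype S] {A B : Set (U → S)} (h : A ⊆ B) :
    pr A ≤ pr B := by
  unfold pr
  apply div_le_div_of_nonneg_right _ (by positivity)
  have : (Finset.univ.filter fun ω : U → S => ω ∈ A) ⊆
      (Finset.univ.filter fun ω : U → S => ω ∈ B) := by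
    intro ω hω
    rw [Finset.mem_filter] at hω ⊢
    exact ⟨hω.1, h hω.2⟩
  exact_mod_cast Finset.card_le_card this

/-- The counting estimate for cut links. -/
theorem cut_pr (lin : LINStmt) {U Λ : Type} [Fintype U] [Fintype Λ] (M : Finset Λ) (rep : Λ → U)
    (sg : Λ → Bool) (hc : Coin M rep sg) (J : Finset Λ) (hJ : J ⊆ M) (N L Q : ℕ) (hN : J.card ≤ N)
    (hL : 1 ≤ L) (hQ : 1 ≤ Q) :
    pr {ω : U → Bool | ¬ ((J.card : ℝ) / 2 ≤
      ((cut J rep sg ω).card : ℝ) + 1 / (L : ℝ) ^ 4 * N + (L : ℝ) ^ 6 * Q)} ≤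
      Real.exp (-((L : ℝ) ^ 2 * Q)) := by
  have hL1 : (1 : ℝ) ≤ L := by exact_mod_cast hL
  have hQ1 : (1 : ℝ) ≤ Q := by exact_mod_cast hQ
  have hL0 : (0 : ℝ) < L := by linarith
  have hN0 : (0 : ℝ) ≤ N := Nat.cast_nonneg N
  have hJN : (J.card : ℝ) ≤ N := by exact_mod_cast hN
  set t : ℝ := 1 / (L : ℝ) ^ 4 * N + (L : ℝ) ^ 6 * Q with ht
  have ht0 : 0 ≤ t := by positivity
  have h := ((lin U Λ M rep sg hc).2 J hJ (N + 1) t (by linarith) (by linarith) ht0).2
  have key : (L : ℝ) ^ 2 * Q ≤ t ^ 2 / (N + 1) := by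
    rw [le_div_iff₀ (by linarith)]
    have e1 : t ^ 2 = (1 / (L : ℝ) ^ 4 * N) ^ 2 + 2 * (L : ℝ) ^ 2 * Q * N +
        ((L : ℝ) ^ 6 * Q) ^ 2 := by
      rw [ht]
      field_simp
      ring
    have e2 : (0 : ℝ) ≤ (1 / (L : ℝ) ^ 4 * N) ^ 2 := by positivity
    have e3 : (L : ℝ) ^ 2 * Q ≤ ((L : ℝ) ^ 6 * Q) ^ 2 := by
      have a1 : (L : ℝ) ^ 2 ≤ (L : ℝ) ^ 12 := pow_le_pow_right₀ hL1 (by norm_num)
      have a2 : (Q : ℝ) ≤ (Q : ℝ) ^ 2 := by nlinarith
      calc (L : ℝ) ^ 2 * Q ≤ (L : ℝ) ^ 12 * (Q : ℝ) ^ 2 := by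
            apply mul_le_mul a1 a2 (by positivity) (by positivity)
        _ = ((L : ℝ) ^ 6 * Q) ^ 2 := by ring
    have e4 : (0 : ℝ) ≤ (L : ℝ) ^ 2 * Q * N := by positivity
    rw [e1]
    nlinarith
  refine le_trans (pr_mono ?_) (le_trans h (Real.exp_le_exp.mpr (neg_le_neg key)))
  intro ω hω
  rw [Set.mem_ofPred_eq] at hω ⊢
  have e5 : (∑ l ∈ J, cv rep sg ω l) = ((cut J rep sg ω).card : ℝ) := by
    unfold cv cut
    rw [Finset.sum_boole]
  rw [e5]
  rw [not_le] at hω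
  linarith

theorem ran_card {F : Finset (α × β)} (hF : PI F) (S : Finset β) :
    (ran F ∩ S).card = (F.filter fun l => l.2 ∈ S).card := by
  have : ran F ∩ S = (F.filter fun l => l.2 ∈ S).image Prod.snd := by
    ext y
    simp only [ran, Finset.mem_inter, Finset.mem_image, Finset.mem_filter]
    constructor
    · rintro ⟨⟨l, h1, rfl⟩, h2⟩
      exact ⟨l, ⟨h1, h2⟩, rfl⟩
    · rintro ⟨l, ⟨h1, h2⟩, rfl⟩
      exact ⟨⟨l, h1, rfl⟩, h2⟩
  rw [this]
  apply Finset.card_image_of_injOn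
  rintro ⟨x, y⟩ h1 ⟨x', y'⟩ h2 h3
  simp only [Finset.coe_filter, Set.mem_ofPred_eq] at h1 h2 h3
  subst h3
  rw [hF.2 x x' y h1.1 h2.1]

theorem dom_card {F : Finset (α × β)} (hF : PI F) (S : Finset α) :
    (dom F ∩ S).card = (F.filter fun l => l.1 ∈ S).card := by
  have : dom F ∩ S = (F.filter fun l => l.1 ∈ S).image Prod.fst := by
    ext y
    simp only [dom, Finset.mem_inter, Finset.mem_image, Finset.mem_filter]
    constructor
    · rintro ⟨⟨l, h1, rfl⟩, h2⟩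
      exact ⟨l, ⟨h1, h2⟩, rfl⟩
    · rintro ⟨l, ⟨h1, h2⟩, rfl⟩
      exact ⟨⟨l, h1, rfl⟩, h2⟩
  rw [this]
  apply Finset.card_image_of_injOn
  rintro ⟨x, y⟩ h1 ⟨x', y'⟩ h2 h3
  simp only [Finset.coe_filter, Set.mem_ofPred_eq] at h1 h2 h3
  subst h3
  rw [hF.1 x y y' h1.1 h2.1]

theorem pi_sub {F G : Finset (α × β)} (hG : PI G) (h : F ⊆ G) : PI F :=
  ⟨fun x y y' h1 h2 => hG.1 x y y' (h h1) (h h2), fun x x' y h1 h2 => hG.2 x x' y (h h1) (h h2)⟩

theorem cut_sub {Λ U : Type} (M : Finset Λ) (rep : Λ → U) (sg : Λ → Bool) (ω : U → Bool) :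
    cut M rep sg ω ⊆ M := Finset.filter_subset _ _

theorem cut_filter {Λ U : Type} (M : Finset Λ) (rep : Λ → U) (sg : Λ → Bool) (ω : U → Bool)
    (p : Λ → Prop) [DecidablePred p] : (cut M rep sg ω).filter p = cut (M.filter p) rep sg ω := by
  unfold cut
  rw [Finset.filter_comm]

theorem cut_congr {Λ U : Type} (M : Finset Λ) (rep : Λ → U) (sg : Λ → Bool) (ω ω' : U → Bool)
    (h : ∀ l ∈ M, ω (rep l) = ω' (rep l)) : cut M rep sg ω = cut M rep sg ω' := by
  unfold cut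
  apply Finset.filter_congr
  intro l hl
  rw [h l hl]

theorem coin_rc {q : ℕ} {Λ : Type} {M : Finset Λ} {rep : Fin q → Λ → Λ} {c : Fin q}
    {sg : Λ → Bool} (h : Coin M (rep c) sg) : Coin M (rc rep c) sg := by
  intro l hl l' hl' hne he
  unfold rc at he
  exact h l hl l' hl' hne (Prod.ext_iff.mp he).2

theorem mem_locC {q : ℕ} (M : Fin q → Finset (α × β)) (rep : Fin q → α × β → α × β) (c : Fin q)
    (l : α × β) (hl : l ∈ M c) : Sum.inl l.1 ∈ locC M rep (rc rep c l) ∧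
      Sum.inr l.2 ∈ locC M rep (rc rep c l) := by
  unfold locC rc
  constructor
  · rw [Finset.mem_biUnion]
    exact ⟨l, Finset.mem_filter.mpr ⟨hl, rfl⟩, by simp⟩
  · rw [Finset.mem_biUnion]
    exact ⟨l, Finset.mem_filter.mpr ⟨hl, rfl⟩, by simp⟩

/-- CN3. -/
theorem cn3 (lin : LINStmt) : CN3Stmt := by
  intro k L q D δ η r T Rr ζ P P' hprm α β _ _ E R R' X Y M rep sg hpre c Q hQ
  have hL := prm_L hprm
  have hQ1 : 1 ≤ Q.card := Finset.card_pos.mpr hQ.1
  have hPI := hpre.mp c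
  have hcu : ∀ ω, PI (cu M rep sg ω c) := fun ω => pi_sub hPI (cut_sub _ _ _ _)
  have hcoin : Coin (M c) (rc rep c) (sg c) := coin_rc (hpre.cn c)
  refine ⟨Or.inr ⟨hQ, ?_, ?_⟩, Or.inr ⟨hQ, ?_, ?_⟩⟩
  · refine ⟨((M c).filter fun l => l.2 ∈ clB E (L ^ 2) Q).image (rc rep c), ?_, ?_⟩
    · intro ω ω' h hω
      have : (ran (cu M rep sg ω' c) ∩ clB E (L ^ 2) Q).card =
          (ran (cu M rep sg ω c) ∩ clB E (L ^ 2) Q).card := by
        rw [ran_card (hcu ω'), ran_card (hcu ω)]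
        unfold cu
        rw [cut_filter, cut_filter]
        congr 1
        apply cut_congr
        intro l hl
        exact (h _ (Finset.mem_image_of_mem _ hl)).symm
      rw [Set.mem_ofPred_eq] at hω ⊢
      rw [this]
      exact hω
    · intro u hu
      obtain ⟨l, hl, rfl⟩ := Finset.mem_image.mp hu
      rw [Finset.mem_filter] at hl
      refine ⟨Sum.inr l.2, (mem_locC M rep c l hl.1).2, ?_⟩
      exact clB_nr3 E L hL Q l.2 hl.2
  · have hN : ((M c).filter fun l => l.2 ∈ clB E (L ^ 2) Q).card ≤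
        (Y c ∩ clB E (L ^ 2) Q).card := by
      rw [← ran_card hPI]
      apply Finset.card_le_card
      intro y hy
      rw [Finset.mem_inter] at hy ⊢
      refine ⟨?_, hy.2⟩
      obtain ⟨l, hl, rfl⟩ := Finset.mem_image.mp hy.1
      exact (hpre.mR c l hl).2.2
    have h := cut_pr lin (M c) (rc rep c) (sg c) hcoin
      ((M c).filter fun l => l.2 ∈ clB E (L ^ 2) Q) (Finset.filter_subset _ _) _ L Q.card hN hL hQ1
    refine le_trans (le_of_eq ?_) h
    congr 1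
    ext ω
    rw [Set.mem_ofPred_eq, Set.mem_ofPred_eq, ran_card hPI, ran_card (hcu ω)]
    unfold cu
    rw [cut_filter]
  · refine ⟨((M c).filter fun l => l.1 ∈ clA E (L ^ 2) Q).image (rc rep c), ?_, ?_⟩
    · intro ω ω' h hω
      have : (dom (cu M rep sg ω' c) ∩ clA E (L ^ 2) Q).card =
          (dom (cu M rep sg ω c) ∩ clA E (L ^ 2) Q).card := by
        rw [dom_card (hcu ω'), dom_card (hcu ω)]
        unfold cu
        rw [cut_filter, cut_filter]
        congr 1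
        apply cut_congr
        intro l hl
        exact (h _ (Finset.mem_image_of_mem _ hl)).symm
      rw [Set.mem_ofPred_eq] at hω ⊢
      rw [this]
      exact hω
    · intro u hu
      obtain ⟨l, hl, rfl⟩ := Finset.mem_image.mp hu
      rw [Finset.mem_filter] at hl
      refine ⟨Sum.inl l.1, (mem_locC M rep c l hl.1).1, ?_⟩
      exact clA_nr3 E L hL Q l.1 hl.2
  · have hN : ((M c).filter fun l => l.1 ∈ clA E (L ^ 2) Q).card ≤
        (X c ∩ clA E (L ^ 2) Q).card := by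
      rw [← dom_card hPI]
      apply Finset.card_le_card
      intro y hy
      rw [Finset.mem_inter] at hy ⊢
      refine ⟨?_, hy.2⟩
      obtain ⟨l, hl, rfl⟩ := Finset.mem_image.mp hy.1
      exact (hpre.mR c l hl).2.1
    have h := cut_pr lin (M c) (rc rep c) (sg c) hcoin
      ((M c).filter fun l => l.1 ∈ clA E (L ^ 2) Q) (Finset.filter_subset _ _) _ L Q.card hN hL hQ1
    refine le_trans (le_of_eq ?_) h
    congr 1
    ext ω
    rw [Set.mem_ofPred_eq, Set.mem_ofPred_eq, dom_card hPI, dom_card (hcu ω)]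
    unfold cu
    rw [cut_filter]

end Pool.Agent.LAP.H67
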