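import Pool.Agent.Helper23_LAP.Stmts

/-!
# LAP, module SK2: event (K2)
-/

set_option autoImplicit false

namespace Pool.Agent.LAP.H67

open scoped Classical
open Finset

variable {α β : Type}

/-- The general counting estimate. -/
theorem count_pr (thu : THUStmt) {U : Type} [Fintype U] (P' L : ℕ) (hP : 0 < P') (hL : 1 ≤ L)
    (I : Finset U) (Q : ℕ) :
    pr {ω : U → Fin P' | ¬ (((I.filter fun u => (ω u).val = 0).card : ℝ) ≤
      (1 + 1 / (L : ℝ) ^ 4) / P' * I.card + (L : ℝ) ^ 6 * Q)} ≤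
      Real.exp (-((L : ℝ) ^ 2 * Q)) := by
  have : Nonempty (Fin P') := ⟨⟨0, hP⟩⟩
  have hL0 : (0 : ℝ) < L := by exact_mod_cast hL
  have hL1 : (1 : ℝ) ≤ L := by exact_mod_cast hL
  have hP0 : (0 : ℝ) < P' := by exact_mod_cast hP
  have h := thu U (Fin P') I (fun _ => 1) (fun _ => {⟨0, hP⟩}) 1 (1 / (L : ℝ) ^ 4)
    ((L : ℝ) ^ 6 * Q) (I.card / P') one_pos (by positivity)
    (by rw [div_le_one (by positivity)]; exact one_le_pow₀ hL1)
    (fun u _ => ⟨zero_le_one, le_refl _⟩)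
    (by
      simp only [Finset.card_singleton, Nat.cast_one, one_mul, Fintype.card_fin,
        Finset.sum_const, nsmul_eq_mul]
      rw [mul_one_div])
  have e : -(1 / (L : ℝ) ^ 4 * ((L : ℝ) ^ 6 * Q) / 1) = -((L : ℝ) ^ 2 * Q) := by
    field_simp
  rw [e] at h
  refine le_trans ?_ h
  unfold pr
  apply div_le_div_of_nonneg_right _ (by positivity)
  have : (Finset.univ.filter fun ω : U → Fin P' => ω ∈ {ω : U → Fin P' |
      ¬ (((I.filter fun u => (ω u).val = 0).card : ℝ) ≤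
      (1 + 1 / (L : ℝ) ^ 4) / P' * I.card + (L : ℝ) ^ 6 * Q)}) ⊆
      (Finset.univ.filter fun ω : U → Fin P' => ω ∈ {ω : U → Fin P' |
        (1 + 1 / (L : ℝ) ^ 4) * (I.card / P') + (L : ℝ) ^ 6 * Q ≤
          ∑ u ∈ I, if ω u ∈ ({⟨0, hP⟩} : Finset (Fin P')) then (1 : ℝ) else 0}) := by
    intro ω hω
    simp only [Finset.mem_filter, Finset.mem_univ, true_and, Set.mem_ofPred_eq, not_le] at hω ⊢
    have e2 : (∑ u ∈ I, if ω u ∈ ({⟨0, hP⟩} : Finset (Fin P')) then (1 : ℝ) else 0) =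
        ((I.filter fun u => (ω u).val = 0).card : ℝ) := by
      rw [Finset.sum_boole]
      congr 2
      apply Finset.filter_congr
      intro u _
      rw [Finset.mem_singleton, Fin.ext_iff]
    rw [e2]
    have e3 : (1 + 1 / (L : ℝ) ^ 4) * (I.card / P') = (1 + 1 / (L : ℝ) ^ 4) / P' * I.card := by
      ring
    rw [e3]
    exact hω.le
  exact_mod_cast Finset.card_le_card this

/-- Positivity of the number of labels. -/
theorem prm_pos {k L q : ℕ} {D δ η r T Rr ζ : ℝ} {P P' : ℕ}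
    (h : Prm k L q D δ η r T Rr ζ P P') : 0 < P' := by
  rcases Nat.eq_zero_or_pos P' with h0 | h0
  · exfalso
    have h1 := h.s3
    have h2 : (0 : ℝ) < (L : ℝ) := by
      have := h.L4
      have : (0 : ℕ) < L := by omega
      exact_mod_cast this
    rw [h0] at h1
    have : (0 : ℝ) < (L : ℝ) ^ 4 := by positivity
    norm_num at h1
    linarith
  · exact h0

theorem prm_L {k L q : ℕ} {D δ η r T Rr ζ : ℝ} {P P' : ℕ}
    (h : Prm k L q D δ η r T Rr ζ P P') : 1 ≤ L := by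
  have := h.L4
  omega

/-- Elements of the right closure are adjacent to `Q`. -/
theorem clB_adj [Fintype α] [Fintype β] (E : Finset (α × β)) (L : ℕ) (hL : 1 ≤ L)
    (Q : Finset (α ⊕ β)) (y : β) (hy : y ∈ clB E (L ^ 2) Q) :
    ∃ x : α, Sum.inl x ∈ Q ∧ (x, y) ∈ E := by
  unfold clB clI at hy
  rw [Finset.mem_filter] at hy
  have h1 : 0 < (inn E y ∩ lp Q).card := lt_of_lt_of_le (by positivity) hy.2
  obtain ⟨x, hx⟩ := Finset.card_pos.mp h1
  rw [Finset.mem_inter] at hx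
  unfold inn lp at hx
  rw [Finset.mem_filter, Finset.mem_filter] at hx
  exact ⟨x, hx.2.2, hx.1.2⟩

/-- Elements of the left closure are adjacent to `Q`. -/
theorem clA_adj [Fintype α] [Fintype β] (E : Finset (α × β)) (L : ℕ) (hL : 1 ≤ L)
    (Q : Finset (α ⊕ β)) (x : α) (hx : x ∈ clA E (L ^ 2) Q) :
    ∃ y : β, Sum.inr y ∈ Q ∧ (x, y) ∈ E := by
  unfold clA clO at hx
  rw [Finset.mem_filter] at hx
  have h1 : 0 < (out E x ∩ rp Q).card := lt_of_lt_of_le (by positivity) hx.2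
  obtain ⟨y, hy⟩ := Finset.card_pos.mp h1
  rw [Finset.mem_inter] at hy
  unfold out rp at hy
  rw [Finset.mem_filter, Finset.mem_filter] at hy
  exact ⟨y, hy.2.2, hy.1.2⟩

theorem nr3_of_adj {W : Type} (r : W → W → Prop) {u v : W} (h : r u v) : nr3 r u v :=
  ⟨u, v, Or.inl rfl, Or.inr h, Or.inl rfl⟩

theorem clB_nr3 [Fintype α] [Fintype β] (E : Finset (α × β)) (L : ℕ) (hL : 1 ≤ L)
    (Q : Finset (α ⊕ β)) (y : β) (hy : y ∈ clB E (L ^ 2) Q) :
    ∃ z ∈ Q, nr3 (sadj E) (Sum.inr y) z := by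
  obtain ⟨x, hx, h⟩ := clB_adj E L hL Q y hy
  exact ⟨Sum.inl x, hx, nr3_of_adj _ h⟩

theorem clA_nr3 [Fintype α] [Fintype β] (E : Finset (α × β)) (L : ℕ) (hL : 1 ≤ L)
    (Q : Finset (α ⊕ β)) (x : α) (hx : x ∈ clA E (L ^ 2) Q) :
    ∃ z ∈ Q, nr3 (sadj E) (Sum.inl x) z := by
  obtain ⟨y, hy, h⟩ := clA_adj E L hL Q x hx
  exact ⟨Sum.inr y, hy, nr3_of_adj _ h⟩

/-- SK2. -/
theorem sk2 (thu : THUStmt) : SK2Stmt := by
  intro k L q D δ η r T Rr ζ P P' hprm α β _ _ E R X Y _ c Q hQ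
  have hP := prm_pos hprm
  have hL := prm_L hprm
  refine ⟨Or.inr ⟨hQ, ?_, ?_⟩, Or.inr ⟨hQ, ?_, ?_⟩⟩
  · refine ⟨(Y c ∩ clB E (L ^ 2) Q).image (fun y => (c, Sum.inr y)), ?_, ?_⟩
    · intro ω ω' h hω
      have : Y c ∩ clB E (L ^ 2) Q ∩ skY Y ω' c = Y c ∩ clB E (L ^ 2) Q ∩ skY Y ω c := by
        ext y
        simp only [Finset.mem_inter, skY, Finset.mem_filter]
        constructor
        · rintro ⟨⟨h1, h2⟩, h3, h4⟩
          refine ⟨⟨h1, h2⟩, h3, ?_⟩
          rw [h _ (Finset.mem_image_of_mem _ (Finset.mem_inter.mpr ⟨h1, h2⟩))]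
          exact h4
        · rintro ⟨⟨h1, h2⟩, h3, h4⟩
          refine ⟨⟨h1, h2⟩, h3, ?_⟩
          rw [← h _ (Finset.mem_image_of_mem _ (Finset.mem_inter.mpr ⟨h1, h2⟩))]
          exact h4
      simp only [Set.mem_ofPred_eq] at hω ⊢
      rw [this]
      exact hω
    · intro u hu
      obtain ⟨y, hy, rfl⟩ := Finset.mem_image.mp hu
      refine ⟨Sum.inr y, by simp [locK], ?_⟩
      exact clB_nr3 E L hL Q y (Finset.mem_inter.mp hy).2
  · have h := count_pr thu P' L hP hL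
      ((Y c ∩ clB E (L ^ 2) Q).image (fun y => ((c, Sum.inr y) : Fin q × (α ⊕ β)))) Q.card
    have hinj : Function.Injective (fun y : β => ((c, Sum.inr y) : Fin q × (α ⊕ β))) := by
      intro y y' hyy
      simpa using hyy
    convert h using 6 with ω
    · rw [Finset.filter_image, Finset.card_image_of_injective _ hinj]
      congr 2
      ext y
      simp only [Finset.mem_inter, skY, Finset.mem_filter]
      tauto
    · rw [Finset.card_image_of_injective _ hinj]
  · refine ⟨(X c ∩ clA E (L ^ 2) Q).image (fun x => (c, Sum.inl x)), ?_, ?_⟩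
    · intro ω ω' h hω
      have : X c ∩ clA E (L ^ 2) Q ∩ skX X ω' c = X c ∩ clA E (L ^ 2) Q ∩ skX X ω c := by
        ext x
        simp only [Finset.mem_inter, skX, Finset.mem_filter]
        constructor
        · rintro ⟨⟨h1, h2⟩, h3, h4⟩
          refine ⟨⟨h1, h2⟩, h3, ?_⟩
          rw [h _ (Finset.mem_image_of_mem _ (Finset.mem_inter.mpr ⟨h1, h2⟩))]
          exact h4
        · rintro ⟨⟨h1, h2⟩, h3, h4⟩
          refine ⟨⟨h1, h2⟩, h3, ?_⟩
          rw [← h _ (Finset.mem_image_of_mem _ (Finset.mem_inter.mpr ⟨h1, h2⟩))]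
          exact h4
      simp only [Set.mem_ofPred_eq] at hω ⊢
      rw [this]
      exact hω
    · intro u hu
      obtain ⟨x, hx, rfl⟩ := Finset.mem_image.mp hu
      refine ⟨Sum.inl x, by simp [locK], ?_⟩
      exact clA_nr3 E L hL Q x (Finset.mem_inter.mp hx).2
  · have h := count_pr thu P' L hP hL
      ((X c ∩ clA E (L ^ 2) Q).image (fun x => ((c, Sum.inl x) : Fin q × (α ⊕ β)))) Q.card
    have hinj : Function.Injective (fun x : α => ((c, Sum.inl x) : Fin q × (α ⊕ β))) := by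
      intro y y' hyy
      simpa using hyy
    convert h using 6 with ω
    · rw [Finset.filter_image, Finset.card_image_of_injective _ hinj]
      congr 2
      ext y
      simp only [Finset.mem_inter, skX, Finset.mem_filter]
      tauto
    · rw [Finset.card_image_of_injective _ hinj]

end Pool.Agent.LAP.H67
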